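import Pool.Agent.TH756.PR.Om
import Pool.Agent.TH766.MC.Pos

/-!
Algebraically independent quotients of linear forms of the same component, for arrangements in
several projective spaces.
-/

set_option autoImplicit false

open FF Module Pool.Agent.W603.LV Pool.Agent.W602.GT Pool.Agent.W602.Cov Pool.Agent.W602.Cov.G
open Pool.Agent.W168.CG.PGR Pool.Agent.TH152.AC Pool.Agent.TH756.PR Pool.Agent.TH766.MC

namespace Pool.Agent.Y180.MP

variable {r : ℕ} {n q c : Fin r → ℕ} {ℓ : ∀ i, Fin (q i) → Form (n i)}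
  {γ : ∀ i, Fin (q i) → Fin (c i)} {K : Type} [Field K] [Algebra ℂ K]

/-- algebraically independent ratios inside the components -/
theorem indep_prod (B0 : ∀ i, Bases (ℓ i)) {x : ∀ i, Fin (n i + 1) → K}
    (hlx : ∀ i k, lf (ℓ i k) (x i) ≠ 0) (hx0 : ∀ i, x i 0 ≠ 0)
    (hbas : IsTranscendenceBasis ℂ (aff x)) (rr : ∀ i, Fin (c i) → Fin (n i + 1))
    (hrr : ∀ i j, γ i ((B0 i).1 (rr i j)) = j) :
    AlgebraicIndependent ℂ
      fun a : {a : (i : Fin r) × Fin (n i + 1) // rr a.1 (γ a.1 ((B0 a.1).1 a.2)) ≠ a.2} =>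
        lf (ℓ a.1.1 ((B0 a.1.1).1 a.1.2)) (x a.1.1) /
          lf (ℓ a.1.1 ((B0 a.1.1).1 (rr a.1.1 (γ a.1.1 ((B0 a.1.1).1 a.1.2))))) (x a.1.1) := by
  classical
  obtain ⟨X, hX⟩ : ∃ X : ∀ i, Fin (n i + 1) → K, ∀ i a, X i a = lf (ℓ i ((B0 i).1 a)) (x i) :=
    ⟨_, fun _ _ => rfl⟩
  have hX0 : ∀ i a, X i a ≠ 0 := fun i a => by
    rw [hX]
    exact hlx i _
  obtain ⟨rt, hrt⟩ : ∃ rt : ∀ i, Fin (n i + 1) → Fin (n i + 1),
      ∀ i a, rt i a = rr i (γ i ((B0 i).1 a)) := ⟨_, fun _ _ => rfl⟩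
  have hrrr : ∀ i j, rt i (rr i j) = rr i j := fun i j => by rw [hrt, hrr]
  have hr2 : ∀ i a, rt i (rt i a) = rt i a := fun i a => by rw [hrt i a, hrrr]
  obtain ⟨a0, ha0⟩ : ∃ a0 : ∀ i, Fin (n i + 1), ∀ i, a0 i = rt i 0 := ⟨_, fun _ => rfl⟩
  have hra0 : ∀ i, rt i (a0 i) = a0 i := fun i => by rw [ha0, hr2]
  let f : {a : (i : Fin r) × Fin (n i + 1) // a.2 ≠ a0 a.1} → K := fun a =>
    if rt a.1.1 a.1.2 = a.1.2 then X a.1.1 a.1.2 / X a.1.1 (a0 a.1.1)
    else X a.1.1 a.1.2 / X a.1.1 (rt a.1.1 a.1.2)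
  set E := IntermediateField.adjoin ℂ (Set.range f) with hE
  have hE1' : ∀ i a, rt i a = a → X i a / X i (a0 i) ∈ E := by
    intro i a ha
    by_cases haa : a = a0 i
    · rw [haa, div_self (hX0 _ _)]
      exact one_mem _
    · have h1 : f ⟨⟨i, a⟩, haa⟩ ∈ E := IntermediateField.subset_adjoin ℂ _ ⟨_, rfl⟩
      simp only [f, if_pos ha] at h1
      exact h1
  have hE1 : ∀ i a, X i a / X i (a0 i) ∈ E := by
    intro i a
    by_cases ha : rt i a = a
    · exact hE1' i a ha
    · have haa : a ≠ a0 i := by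
        rintro rfl
        exact ha (hra0 i)
      have h1 : f ⟨⟨i, a⟩, haa⟩ ∈ E := IntermediateField.subset_adjoin ℂ _ ⟨_, rfl⟩
      simp only [f, if_neg ha] at h1
      have h2 := mul_mem h1 (hE1' i (rt i a) (hr2 i a))
      rwa [div_mul_div_cancel₀ (hX0 _ _)] at h2
  have hE2 : ∀ i (φ : Form (n i)), lf φ (x i) / X i (a0 i) ∈ E := by
    intro i φ
    have hφ : φ ∈ Submodule.span ℂ (Set.range (bas (B0 i))) := by
      rw [(bas (B0 i)).span_eq]; trivial
    induction hφ using Submodule.span_induction with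
    | mem φ hφ =>
      obtain ⟨a, rfl⟩ := hφ
      rw [bas_apply, ← hX]
      exact hE1 i a
    | zero => rw [lf_zero, zero_div]; exact zero_mem _
    | add φ ψ _ _ h1 h2 => rw [lf_add, add_div]; exact add_mem h1 h2
    | smul c φ _ h1 =>
      rw [lf_smul, mul_div_assoc]
      exact mul_mem (E.algebraMap_mem c) h1
  have hE3 : ∀ i j, x i j / X i (a0 i) ∈ E := fun i j => by
    have := hE2 i (LinearMap.proj j)
    rwa [lf_proj] at this
  have hle : Algebra.adjoin ℂ (Set.range (aff x)) ≤ E.toSubalgebra := by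
    rw [Algebra.adjoin_le_iff]
    rintro _ ⟨b, rfl⟩
    have h1 := div_mem (hE3 b.1 b.2.succ) (hE3 b.1 0)
    rwa [div_div_div_cancel_right₀ (hX0 _ _)] at h1
  have halg : Algebra.IsAlgebraic E K := by
    have h1 := hbas.isAlgebraic
    constructor
    intro z
    have h2 := h1.isAlgebraic z
    obtain ⟨P, hP0, hP⟩ := h2
    refine ⟨P.map (Subalgebra.inclusion hle).toRingHom, ?_, ?_⟩
    · rw [Ne, Polynomial.map_eq_zero_iff]
      · exact hP0
      · exact Subalgebra.inclusion_injective hle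
    · rw [Polynomial.aeval_def, Polynomial.eval₂_map]
      rw [Polynomial.aeval_def] at hP
      exact hP
  have halg2 : Algebra.IsAlgebraic (Algebra.adjoin ℂ (Set.range f)) K := alg_adjoin halg
  have htr : Algebra.trdeg ℂ K = (∑ i, n i : ℕ) := by
    have h := hbas.cardinalMk_eq_trdeg
    rw [Cardinal.mk_fintype, Fintype.card_sigma] at h
    simp only [Fintype.card_fin] at h
    exact h.symm
  have hcard : Fintype.card {a : (i : Fin r) × Fin (n i + 1) // a.2 ≠ a0 a.1} = ∑ i, n i := by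
    have h1 : Fintype.card {a : (i : Fin r) × Fin (n i + 1) // a.2 = a0 a.1} = r := by
      refine (Fintype.card_congr (β := Fin r)
        { toFun := fun a => a.1.1
          invFun := fun i => ⟨⟨i, a0 i⟩, rfl⟩
          left_inv := by
            rintro ⟨⟨i, a⟩, ha⟩
            dsimp only at ha
            subst ha
            rfl
          right_inv := fun i => rfl }).trans (Fintype.card_fin r)
    rw [Fintype.card_subtype_compl, h1, Fintype.card_sigma]
    simp only [Fintype.card_fin, Finset.sum_add_distrib, Finset.sum_const, Finset.card_univ,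
      smul_eq_mul, mul_one]
    omega
  have hbasf : IsTranscendenceBasis ℂ f := by
    apply Algebra.IsAlgebraic.isTranscendenceBasis_of_lift_le_trdeg_of_finite
    rw [htr, Cardinal.mk_fintype, hcard]
  have hne : ∀ a : {a : (i : Fin r) × Fin (n i + 1) // rr a.1 (γ a.1 ((B0 a.1).1 a.2)) ≠ a.2},
      a.1.2 ≠ a0 a.1.1 := by
    rintro ⟨⟨i, a⟩, ha⟩ hi
    dsimp only at ha hi
    rw [← hrt] at ha
    subst hi
    exact ha (hra0 i)
  have h1 := hbasf.1.comp (fun a => (⟨a.1, hne a⟩ :
      {a : (i : Fin r) × Fin (n i + 1) // a.2 ≠ a0 a.1}))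
    (fun a b hab => Subtype.ext (by
      have h2 := congrArg Subtype.val hab
      exact h2))
  convert h1 using 1
  funext a
  obtain ⟨⟨i, a⟩, ha⟩ := a
  dsimp only at ha
  simp only [Function.comp, f, hX, hrt]
  rw [if_neg ha]

/-- the number of the ratios of the factors in `I` -/
theorem card_ratios (B0 : ∀ i, Bases (ℓ i)) (rr : ∀ i, Fin (c i) → Fin (n i + 1))
    (hrr : ∀ i j, γ i ((B0 i).1 (rr i j)) = j) (I : Finset (Fin r)) {h : ℕ}
    (hh : h + ∑ i ∈ I, c i = ∑ i ∈ I, (n i + 1)) :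
    ∃ ι : Fin h → {a : (i : Fin r) × Fin (n i + 1) // rr a.1 (γ a.1 ((B0 a.1).1 a.2)) ≠ a.2},
      Function.Injective ι ∧ ∀ b, (ι b).1.1 ∈ I := by
  classical
  let S : Finset ((i : Fin r) × Fin (n i + 1)) :=
    (I.sigma fun i => Finset.univ.filter fun a : Fin (n i + 1) => rr i (γ i ((B0 i).1 a)) ≠ a)
  have hScard : S.card = h := by
    have h1 : ∀ i, (Finset.univ.filter fun a : Fin (n i + 1) => rr i (γ i ((B0 i).1 a)) ≠ a).card +
        c i = n i + 1 := by
      intro i
      have h2 := Finset.card_filter_add_card_filter_not (s := (Finset.univ : Finset (Fin (n i + 1))))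
        (fun a : Fin (n i + 1) => rr i (γ i ((B0 i).1 a)) = a)
      have h3 : (Finset.univ.filter fun a : Fin (n i + 1) =>
          rr i (γ i ((B0 i).1 a)) = a).card = c i := by
        have h4 : (Finset.univ.filter fun a : Fin (n i + 1) =>
          rr i (γ i ((B0 i).1 a)) = a) = Finset.univ.image (rr i) := by
          ext a
          simp only [Finset.mem_filter, Finset.mem_univ, true_and, Finset.mem_image]
          constructor
          · intro h
            exact ⟨_, h⟩
          · rintro ⟨j, rfl⟩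
            rw [hrr]
        rw [h4, Finset.card_image_of_injective, Finset.card_univ, Fintype.card_fin]
        intro j j' hj
        have h5 := congrArg (fun a => γ i ((B0 i).1 a)) hj
        simpa only [hrr] using h5
      rw [h3, Finset.card_univ, Fintype.card_fin] at h2
      have h6 : (Finset.univ.filter fun a : Fin (n i + 1) =>
          ¬ rr i (γ i ((B0 i).1 a)) = a) = Finset.univ.filter fun a : Fin (n i + 1) =>
            rr i (γ i ((B0 i).1 a)) ≠ a := rfl
      rw [h6] at h2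
      omega
    have h2 : S.card + ∑ i ∈ I, c i = ∑ i ∈ I, (n i + 1) := by
      rw [Finset.card_sigma, ← Finset.sum_add_distrib]
      exact Finset.sum_congr rfl fun i _ => h1 i
    omega
  let e : Fin h ≃ S := (Fintype.equivFinOfCardEq (by rw [Fintype.card_coe, hScard])).symm
  have hmem : ∀ b, (e b).1.1 ∈ I ∧ rr (e b).1.1 (γ (e b).1.1 ((B0 (e b).1.1).1 (e b).1.2)) ≠
      (e b).1.2 := by
    intro b
    have h1 := (e b).2
    simp only [S, Finset.mem_sigma, Finset.mem_filter, Finset.mem_univ, true_and] at h1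
    exact h1
  refine ⟨fun b => ⟨(e b).1, (hmem b).2⟩, fun b b' hb => ?_, fun b => (hmem b).1⟩
  apply e.injective
  apply Subtype.ext
  have h5 := congrArg Subtype.val hb
  exact h5

end Pool.Agent.Y180.MP
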