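import Pool.Agent.TH756.PN.FinW

/-!
The Kodaira dimension of pairs on varieties over a product of projective spaces, for general
weights and arbitrary multipliers.
-/

set_option autoImplicit false

open FF Module Pool.Agent.W603.LV Pool.Agent.W602.GT Pool.Agent.W602.Cov Pool.Agent.W602.Cov.G
open Pool.Agent.W168.CG.PGR Pool.Agent.TH152.AC Pool.Agent.TH756.AR Pool.Agent.TH756.PR
open Pool.Agent.TH756.PN

namespace Pool.Agent.Y180.MP

variable {r N : ℕ} {n : Fin r → ℕ} {K : Type} [Field K] [Algebra ℂ K]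
  (e : ((i : Fin r) × Fin (n i)) ≃ Fin N) {q : Fin r → ℕ} {ℓ : ∀ i, Fin (q i) → Form (n i)}

/-- **The Kodaira dimension of pairs**, for the multipliers `u`. -/
theorem kodU (hspan : ∀ i, Submodule.span ℂ (Set.range (ℓ i)) = ⊤)
    (p : ∀ i, Bases (ℓ i) → ℕ) (hp0 : ∀ i, 0 < ∑ B, p i B) (g : ∀ i, (Fin (q i) → ℕ) → ℚ)
    (hp : ∀ i, Hp (ℓ i) (p i) (g i)) {x : ∀ i, Fin (n i + 1) → K}
    (hlx : ∀ i k, lf (ℓ i k) (x i) ≠ 0) (hx0 : ∀ i, x i 0 ≠ 0)
    (hbas : IsTranscendenceBasis ℂ (uu e x)) (V : Set (Place ℂ K)) (δ : Place ℂ K → ℝ)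
    (hδ : ∀ P ∈ V, 0 ≤ δ P)
    (hP : ∀ P ∈ V, Divisorial N P → ∀ (a : Fin r → ℤ) (v : ∀ i, Fin (q i) → ℕ),
      (∀ i k, P.ord (lf (ℓ i k) (x i)) = a i + v i k) →
      (∀ i, Submodule.span ℂ (ℓ i '' {k | v i k ≠ 0}) ≠ ⊤) → (∃ i, v i ≠ 0) →
      1 - δ P ≤ ((∑ i, g i (v i) : ℚ) : ℝ))
    (h : ℕ) (u : Fin h → K) (hu : AlgebraicIndependent ℂ u)
    (hV : ∀ b, {P ∈ V | P.ord (u b) ≠ 0}.Finite)
    (hs : ∀ P ∈ V, Divisorial N P → (∃ b, P.ord (u b) < 0) →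
      ∀ (a : Fin r → ℤ) (v : ∀ i, Fin (q i) → ℕ),
      (∀ i k, P.ord (lf (ℓ i k) (x i)) = a i + v i k) →
      (∀ i, Submodule.span ℂ (ℓ i '' {k | v i k ≠ 0}) ≠ ⊤) →
      (∃ i, v i ≠ 0) ∧ 1 - δ P < ((∑ i, g i (v i) : ℚ) : ℝ)) :
    KodP K N V δ h := by
  classical
  obtain ⟨m, hm⟩ : ∃ m : Place ℂ K → ℕ, ∀ P, m P = ∑ b, (-P.ord (u b)).toNat :=
    ⟨_, fun _ => rfl⟩
  have hm0 : ∀ P, m P ≠ 0 → ∃ b, P.ord (u b) < 0 := by
    intro P h0
    rw [hm] at h0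
    obtain ⟨b, -, hb⟩ := Finset.exists_ne_zero_of_sum_ne_zero h0
    exact ⟨b, by omega⟩
  have hmb : ∀ P b, -(m P : ℤ) ≤ P.ord (u b) := by
    intro P b
    have h1 : (-P.ord (u b)).toNat ≤ m P := by
      rw [hm]
      exact Finset.single_le_sum (f := fun b => (-P.ord (u b)).toNat) (fun _ _ => Nat.zero_le _)
        (Finset.mem_univ b)
    omega
  -- the finitely many places with a negative order
  obtain ⟨S, hSdef⟩ : ∃ S : Set (Place ℂ K), S = ⋃ (b : Fin h), {P ∈ V | P.ord (u b) ≠ 0} :=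
    ⟨_, rfl⟩
  have hSfin : S.Finite := by
    rw [hSdef]
    exact Set.finite_iUnion fun b => hV b
  have hmem : ∀ P ∈ V, m P ≠ 0 → P ∈ S := by
    intro P hPX h0
    obtain ⟨b, hb⟩ := hm0 P h0
    rw [hSdef]
    exact Set.mem_iUnion.2 ⟨b, hPX, hb.ne⟩
  have huniq : ∀ (P : Place ℂ K) (a a' : Fin r → ℤ) (v v' : ∀ i, Fin (q i) → ℕ),
      (∀ i k, P.ord (lf (ℓ i k) (x i)) = a i + v i k) →
      (∀ i, Submodule.span ℂ (ℓ i '' {k | v i k ≠ 0}) ≠ ⊤) →
      (∀ i k, P.ord (lf (ℓ i k) (x i)) = a' i + v' i k) →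
      (∀ i, Submodule.span ℂ (ℓ i '' {k | v' i k ≠ 0}) ≠ ⊤) → v = v' := by
    intro P a a' v v' hv hsp hv' hsp'
    have ha : ∀ i, a i = a' i := by
      intro i
      obtain ⟨k1, hk1⟩ := exists_zeroP (hspan i) (hsp i)
      obtain ⟨k2, hk2⟩ := exists_zeroP (hspan i) (hsp' i)
      have e1 := hv i k1
      have e2 := hv' i k1
      have e3 := hv i k2
      have e4 := hv' i k2
      rw [hk1] at e1
      rw [hk2] at e4
      have e5 : (0 : ℤ) ≤ v' i k1 := by positivity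
      have e6 : (0 : ℤ) ≤ v i k2 := by positivity
      push_cast at e1 e4
      linarith
    funext i k
    have e1 := hv i k
    have e2 := hv' i k
    rw [ha i] at e1
    have : (v i k : ℤ) = v' i k := by linarith
    exact_mod_cast this
  obtain ⟨M, hM⟩ := uniformP hSfin (fun P M => P ∈ V → Divisorial N P →
      ∀ (a : Fin r → ℤ) (v : ∀ i, Fin (q i) → ℕ),
      (∀ i k, P.ord (lf (ℓ i k) (x i)) = a i + v i k) →
      (∀ i, Submodule.span ℂ (ℓ i '' {k | v i k ≠ 0}) ≠ ⊤) → m P ≠ 0 →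
      (m P : ℝ) ≤ M * (((∑ i, g i (v i) : ℚ) : ℝ) - (1 - δ P))) (by
    intro P _
    by_cases hex : P ∈ V ∧ Divisorial N P ∧ ∃ (a : Fin r → ℤ) (v : ∀ i, Fin (q i) → ℕ),
      (∀ i k, P.ord (lf (ℓ i k) (x i)) = a i + v i k) ∧
      (∀ i, Submodule.span ℂ (ℓ i '' {k | v i k ≠ 0}) ≠ ⊤) ∧ m P ≠ 0
    · obtain ⟨hPX, hPd, a, v, hv, hsp, hv0⟩ := hex
      have hk := (hs P hPX hPd (hm0 P hv0) a v hv hsp).2
      have hpos : 0 < ((∑ i, g i (v i) : ℚ) : ℝ) - (1 - δ P) := by linarith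
      obtain ⟨M, hM⟩ := exists_nat_ge
        ((m P : ℝ) / (((∑ i, g i (v i) : ℚ) : ℝ) - (1 - δ P)))
      refine ⟨M, fun M' hM' _ _ a' v' hv' hsp' _ => ?_⟩
      rw [← huniq P a a' v v' hv hsp hv' hsp']
      have h1 : (M : ℝ) ≤ M' := by exact_mod_cast hM'
      have h2 := hM.trans h1
      rwa [div_le_iff₀ hpos] at h2
    · refine ⟨0, fun M' _ hPX hPd a v hv hsp hv0 => ?_⟩
      exact absurd ⟨hPX, hPd, a, v, hv, hsp, hv0⟩ hex)
  obtain ⟨t, T, hTeq, hT⟩ := exists_weights (M + 1) p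
  have hS : 0 < ∏ i, ∑ B, p i B := Finset.prod_pos fun i _ => hp0 i
  have hTpos : 0 < T := by
    rw [hTeq]
    positivity
  have hTM : M ≤ T := by
    rw [hTeq]
    exact (Nat.le_succ M).trans (Nat.le_mul_of_pos_right _ hS)
  have hTR : (0 : ℝ) < T := by exact_mod_cast hTpos
  obtain ⟨D, hD⟩ := exists_om_ne e hx0 hbas
  let w : Fin (h + 1) → K := Fin.cons 1 u
  have hw : ∀ P b, Ge P (-(m P : ℤ)) (w b) := by
    intro P b
    refine Fin.cases ?_ (fun b => ?_) b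
    · right
      change _ ≤ P.ord (1 : K)
      rw [P.ord_one]
      linarith [Int.natCast_nonneg (m P)]
    · right
      exact hmb P b
  have hpf : pp e ℓ x p t T D ≠ 0 := by
    unfold pp
    exact div_ne_zero (pow_ne_zero _ hD) (dens_ne hlx p t)
  refine ⟨T, hTpos, fun b D => pp e ℓ x p t T D * w b, fun b => ⟨?_, ?_⟩, D, ?_, ?_⟩
  · intro A D'
    change pp e ℓ x p t T _ * _ = _
    rw [pp_pluri e x p t T A D']
    ring
  · intro P hPX hPd D hD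
    obtain ⟨a, v, hv, hx, hsp, c, hc, hc2⟩ := pp_ordW e p g hp hspan t T hT hlx hx0 hbas P D 1
      (om_reg e P hD).1 (om_reg e P hD).2
    have h7 := hc.mul (hw P b)
    rcases h7 with h7 | h7
    · exact Or.inl h7
    right
    have h8 : ((c + -(m P : ℤ) : ℤ) : ℝ) ≤ P.ord (pp e ℓ x p t T D * w b) := by exact_mod_cast h7
    refine le_trans ?_ h8
    push_cast
    have hTδ := mul_nonneg hTR.le (hδ P hPX)
    rcases hc2 with ⟨hv0, h⟩ | ⟨hv0, h⟩
    · have h2 : (0 : ℝ) ≤ c := by exact_mod_cast h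
      have h3 : m P = 0 := by
        by_contra hne
        obtain ⟨⟨i, hi⟩, -⟩ := hs P hPX hPd (hm0 P hne) a v hv hsp
        exact hi (hv0 i)
      rw [h3]
      push_cast
      linarith
    · have h1 : (T : ℝ) * ((∑ i, g i (v i) : ℚ) : ℝ) ≤ c + 1 * T := by
        have h2 : (((T : ℚ) * ∑ i, g i (v i) : ℚ) : ℝ) ≤ ((c + (1 : ℕ) * T : ℚ) : ℝ) :=
          Rat.cast_le.2 h
        push_cast at h2 ⊢
        exact h2
      have hge := hP P hPX hPd a v hv hsp hv0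
      by_cases hvI : m P = 0
      · rw [hvI]
        have h2 := mul_le_mul_of_nonneg_left hge hTR.le
        push_cast
        linarith
      · have h2 := hM T hTM P (hmem P hPX hvI) hPX hPd a v hv hsp hvI
        linarith
  · change pp e ℓ x p t T D * w 0 ≠ 0
    refine mul_ne_zero hpf ?_
    change (1 : K) ≠ 0
    exact one_ne_zero
  · have e1 : (fun b : Fin h => pp e ℓ x p t T D * w b.succ / (pp e ℓ x p t T D * w 0)) = u := by
      funext b
      have e1 : w 0 = 1 := rfl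
      have e2 : w b.succ = u b := rfl
      rw [e1, e2, mul_one, mul_div_cancel_left₀ _ hpf]
    change AlgebraicIndependent ℂ (fun b : Fin h => pp e ℓ x p t T D * w b.succ /
      (pp e ℓ x p t T D * w 0))
    rw [e1]
    exact hu

end Pool.Agent.Y180.MP
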