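import Pool.Agent.Y180.MP.Ind
import Pool.Agent.Y180.MP.KodU
import Pool.Agent.TH766.MC.Pairs

/-!
Pairs on varieties with a generically finite map to a product of projective spaces, over arbitrary
arrangements in the factors.
-/

set_option autoImplicit false

open FF Module Pool.Agent.W603.LV Pool.Agent.W602.GT Pool.Agent.W602.Cov Pool.Agent.W602.Cov.G
open Pool.Agent.W168.CG.PGR Pool.Agent.TH152.AC Pool.Agent.TH756.PR Pool.Agent.TH756.PN
open Pool.Agent.TH766.MC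

namespace Pool.Agent.Y180.MP

section factor

variable {n q c : ℕ} {ℓ : Fin q → Form n} {γ : Fin q → Fin c}

/-- `v` can be normalised on each component -/
def Good (ℓ : Fin q → Form n) (γ : Fin q → Fin c) (v : Fin q → ℕ) : Prop :=
  ∃ (v' : Fin q → ℕ) (m : Fin c → ℕ), Dec ℓ (Fam ℓ γ) v v' ∧ ∀ i, v i = v' i + m (γ i)

/-- the largest difference of the multiplicities of two hyperplanes of the same component -/
def sprd (γ : Fin q → Fin c) (v : Fin q → ℕ) : ℕ :=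
  Finset.univ.sup fun i : Fin q × Fin q => if γ i.2 = γ i.1 then v i.1 - v i.2 else 0

open scoped Classical in
/-- the bound for the weights -/
noncomputable def gC (ℓ : Fin q → Form n) (γ : Fin q → Fin c) (R : ℕ) (v : Fin q → ℕ) : ℚ :=
  if Good ℓ γ v then (sprd γ v : ℚ) / R else 0

theorem hp_gC {R : ℕ} (hR : 1 ≤ R) (hspan : Submodule.span ℂ (Set.range ℓ) = ⊤)
    {p : Bases ℓ → ℕ} (hp : Wt ℓ (Fam ℓ γ) R p) : Hp ℓ p (gC ℓ γ R) := by
  classical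
  intro v _
  have hne := exists_bases hspan
  obtain ⟨B', hB1, hB2⟩ := orders2 hp hne v
  refine ⟨B', ?_⟩
  have h0 : ∑ B, (p B : ℚ) * ∑ a, (v (B.1 a) : ℚ) ≤
      (∑ B, (p B : ℚ)) * ∑ a, (v (B'.1 a) : ℚ) := by exact_mod_cast hB1
  unfold gC
  split_ifs with hg
  · obtain ⟨v', m, hdec, hm⟩ := hg
    obtain ⟨B0⟩ := hne
    obtain ⟨i, hi⟩ : ∃ i, sprd γ v ≤ v' i := by
      obtain ⟨i, -, hi⟩ := Finset.exists_mem_eq_sup (Finset.univ : Finset (Fin q × Fin q))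
        ⟨(B0.1 0, B0.1 0), Finset.mem_univ _⟩
        fun i : Fin q × Fin q => if γ i.2 = γ i.1 then v i.1 - v i.2 else 0
      refine ⟨i.1, ?_⟩
      unfold sprd
      rw [hi]
      split_ifs with h1
      · have h2 := hm i.1
        have h3 := hm i.2
        rw [h1] at h3
        omega
      · exact Nat.zero_le _
    have h1 := hB2 v' hdec i
    have h2 : (R : ℚ) * (∑ B, (p B : ℚ) * ∑ a, (v (B.1 a) : ℚ)) + (∑ B, (p B : ℚ)) * v' i ≤
        R * ((∑ B, (p B : ℚ)) * ∑ a, (v (B'.1 a) : ℚ)) := by exact_mod_cast h1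
    have h3 : (sprd γ v : ℚ) ≤ v' i := by exact_mod_cast hi
    have hRq : (0 : ℚ) < R := by exact_mod_cast hR
    have hpq : (0 : ℚ) ≤ ∑ B, (p B : ℚ) := by positivity
    have h4 := mul_le_mul_of_nonneg_left h3 hpq
    rw [mul_div_assoc', div_add' _ _ _ hRq.ne', div_le_iff₀ hRq]
    linarith
  · rw [mul_zero, zero_add]
    exact h0

theorem le_sprd {v : Fin q → ℕ} {k k' : Fin q} (h : γ k' = γ k) :
    (v k : ℝ) - v k' ≤ sprd γ v := by
  have h1 : (if γ (k, k').2 = γ (k, k').1 then v (k, k').1 - v (k, k').2 else 0) ≤ sprd γ v :=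
    Finset.le_sup (f := fun i : Fin q × Fin q => if γ i.2 = γ i.1 then v i.1 - v i.2 else 0)
      (Finset.mem_univ (k, k'))
  dsimp only at h1
  rw [if_pos h] at h1
  have h2 : v k ≤ v k' + sprd γ v := by omega
  have h3 : (v k : ℝ) ≤ v k' + sprd γ v := by exact_mod_cast h2
  linarith

end factor

variable {r N : ℕ} {n q c : Fin r → ℕ} {ℓ : ∀ i, Fin (q i) → Form (n i)}
  {γ : ∀ i, Fin (q i) → Fin (c i)} {K : Type} [Field K] [Algebra ℂ K]

/-- The condition on the multiplicities. -/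
def Mult (N : ℕ) (ℓ : ∀ i, Fin (q i) → Form (n i)) (γ : ∀ i, Fin (q i) → Fin (c i))
    (x : ∀ i, Fin (n i + 1) → K) (V : Set (Place ℂ K)) (δ : Place ℂ K → ℝ) (R : Fin r → ℕ)
    (I : Finset (Fin r)) : Prop :=
  ∀ P ∈ V, Divisorial N P → ∀ (a : Fin r → ℤ) (v : ∀ i, Fin (q i) → ℕ), Nrm ℓ x P a v →
    (∃ i, v i ≠ 0) → ∃ k k' : ∀ i, Fin (q i), (∀ i, γ i (k' i) = γ i (k i)) ∧
      1 - δ P ≤ ∑ i, ((v i (k i) : ℝ) - v i (k' i)) / R i ∧
      ((∃ i ∈ I, ∃ j j', γ i j = γ i j' ∧ v i j ≠ v i j') →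
        1 - δ P < ∑ i, ((v i (k i) : ℝ) - v i (k' i)) / R i)

/-- **Nonvanishing and the Kodaira dimension of pairs over a product of projective spaces.** -/
theorem pairs_product (e : ((i : Fin r) × Fin (n i)) ≃ Fin N) (hn : ∀ i, 1 ≤ n i)
    (hℓ : ∀ i k, ℓ i k ≠ 0) (hγ : ∀ i, Comps (ℓ i) (γ i)) (hc1 : ∀ i, ¬ Splits (ℓ i) (c i + 1))
    (hspan : ∀ i, Submodule.span ℂ (Set.range (ℓ i)) = ⊤) {R : Fin r → ℕ}
    (hR : ∀ i, Bound (ℓ i) (c i) (R i)) {x : ∀ i, Fin (n i + 1) → K} (hx0 : ∀ i, x i 0 ≠ 0)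
    (hbas : IsTranscendenceBasis ℂ (aff x)) (V : Set (Place ℂ K)) (δ : Place ℂ K → ℝ)
    (hδ : ∀ P ∈ V, 0 ≤ δ P) (I : Finset (Fin r))
    (hV : I.Nonempty → ∀ f : K, f ≠ 0 → {P ∈ V | P.ord f ≠ 0}.Finite)
    (hM : Mult N ℓ γ x V δ R I) {h : ℕ} (hh : h + ∑ i ∈ I, c i = ∑ i ∈ I, (n i + 1)) :
    KodP K N V δ h := by
  classical
  have hlx : ∀ i k, lf (ℓ i k) (x i) ≠ 0 := fun i k => lfs_ne hx0 hbas i (hℓ i k)
  have hBC := fun i => (hγ i).blocks (hℓ i) (hspan i) (hc1 i)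
  have hB : ∀ i, Blocks (ℓ i) (γ i) := fun i => (hBC i).1
  choose p hp using fun i => exists_wt (hn i) (hℓ i) (hR i) (splits_le (hγ i).splits).1 (hspan i)
    (hB i) (hBC i).2
  have hR1 : ∀ i, 1 ≤ R i := fun i => (hR i).pos (hγ i).splits
  have hHp : ∀ i, Hp (ℓ i) (p i) (gC (ℓ i) (γ i) (R i)) := fun i =>
    hp_gC (hR1 i) (hspan i) (hp i)
  have B0 : ∀ i, Bases (ℓ i) := fun i => Classical.choice (exists_bases (hspan i))
  choose rr hrr using fun i => fun j => (hB i).cp_ne (B0 i) j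
  have hrr' : ∀ i j, γ i ((B0 i).1 (rr i j)) = j := fun i j => mem_cp.1 (hrr i j)
  obtain ⟨ι, hι, hιI⟩ := card_ratios B0 rr hrr' I hh
  have hind := (indep_prod B0 hlx hx0 hbas rr hrr').comp ι hι
  -- the value of `gC` at the places
  have hval : ∀ (P : Place ℂ K) (a : Fin r → ℤ) (v : ∀ i, Fin (q i) → ℕ),
      (∀ i k, P.ord (lf (ℓ i k) (x i)) = a i + v i k) → ∀ k k' : ∀ i, Fin (q i),
      (∀ i, γ i (k' i) = γ i (k i)) →
      ∑ i, ((v i (k i) : ℝ) - v i (k' i)) / R i ≤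
        ((∑ i, gC (ℓ i) (γ i) (R i) (v i) : ℚ) : ℝ) := by
    intro P a v hv k k' hk
    push_cast
    refine Finset.sum_le_sum fun i _ => ?_
    have h1 : Good (ℓ i) (γ i) (v i) := by
      obtain ⟨v', m, hdec, hm, -⟩ := (hB i).dec (hspan i) (hlx i) P (hv i)
      exact ⟨v', m, hdec, hm⟩
    unfold gC
    rw [if_pos h1]
    push_cast
    exact div_le_div_of_nonneg_right (le_sprd (hk i)) (by positivity)
  refine kodU e hspan p (fun i => (hp i).1) _ hHp hlx hx0 (basis_uu e hbas) V δ hδ ?_ h _ hind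
    (fun b => ?_) ?_
  · intro P hPV hPd a v hv hsp hv0
    obtain ⟨k, k', hk, h1, -⟩ := hM P hPV hPd a v (nrm hspan hlx hv hsp) hv0
    exact h1.trans (hval P a v hv k k' hk)
  · exact hV ⟨_, hιI b⟩ _ (div_ne_zero (hlx _ _) (hlx _ _))
  · rintro P hPV hPd ⟨b, hb⟩ a v hv hsp
    have h2 : P.ord (lf (ℓ (ι b).1.1 ((B0 (ι b).1.1).1 (ι b).1.2)) (x (ι b).1.1) /
        lf (ℓ (ι b).1.1 ((B0 (ι b).1.1).1 (rr (ι b).1.1 (γ (ι b).1.1
          ((B0 (ι b).1.1).1 (ι b).1.2))))) (x (ι b).1.1)) < 0 := hb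
    rw [P.ord_div (hlx _ _) (hlx _ _), hv, hv] at h2
    have hne : v (ι b).1.1 ((B0 (ι b).1.1).1 (ι b).1.2) ≠ v (ι b).1.1 ((B0 (ι b).1.1).1
        (rr (ι b).1.1 (γ (ι b).1.1 ((B0 (ι b).1.1).1 (ι b).1.2)))) := by
      intro h3
      rw [h3] at h2
      omega
    have hv0 : ∃ i, v i ≠ 0 := by
      refine ⟨(ι b).1.1, fun h3 => hne ?_⟩
      rw [h3]
      rfl
    obtain ⟨k, k', hk, -, h1⟩ := hM P hPV hPd a v (nrm hspan hlx hv hsp) hv0
    exact ⟨hv0, (h1 ⟨_, hιI b, _, _, (hrr' _ _).symm, hne⟩).trans_le (hval P a v hv k k' hk)⟩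

end Pool.Agent.Y180.MP
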